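import Pool.Graph.R_seed8.H343R2.EH.Unsmooth
import Pool.Graph.R_seed8.H95R2.BG.BV
import Pool.Graph.R_seed8.W762.EC.PntA

/-!
Primes in residue classes in short intervals `(x, x + x / (log x) ^ A]`.
-/

set_option autoImplicit false

open Finset ArithmeticFunction

namespace Pool.Agent.Helper81.Blk

open Pool.Agent.H410R2 H343E

/-- Siegel–Walfisz for one modulus, log weighted -/
theorem log_err (m : ℕ) (hm : 1 ≤ m) (A : ℕ) : ∃ X₀ : ℝ, ∀ X : ℝ, X₀ ≤ X → ∀ a : ℕ,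
    a.Coprime m → |psiLogAP X m a - psiLog1 X / (Nat.totient m : ℝ)| ≤ X / Real.log X ^ A := by
  obtain ⟨X₀, h⟩ := Pool.Agent.H95R2.BG.bvap' m hm 1 le_rfl (1 / 4) (by norm_num) A
  refine ⟨max X₀ 1, fun X hX a ha => ?_⟩
  have hX1 : 1 ≤ X := le_trans (le_max_right _ _) hX
  have h1 := h X (le_trans (le_max_left _ _) hX) (fun _ => a)
  refine le_trans ?_ h1
  have hmem : (1 : ℕ) ∈ (Icc 1 ⌊X ^ ((1 : ℝ) / 2 - 1 / 4)⌋₊).filter
      (fun q => Squarefree q ∧ ((fun _ => a) q : ℕ).Coprime (m * q)) := by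
    rw [mem_filter, mem_Icc]
    refine ⟨⟨le_rfl, ?_⟩, squarefree_one, by simpa using ha⟩
    apply Nat.le_floor
    have := Real.one_le_rpow hX1 (by norm_num : (0 : ℝ) ≤ 1 / 2 - 1 / 4)
    simpa using this
  have h2 := single_le_sum (f := fun q : ℕ => (1 : ℝ) ^ q.primeFactors.card *
    |psiLogAP X (m * q) a - psiLog1 X / (Nat.totient (m * q) : ℝ)|)
    (fun q _ => by positivity) hmem
  simpa using h2

/-- elementary: eventually `C ≤ log x` and so on -/
theorem ev_log (C : ℝ) : ∃ X₀ : ℝ, ∀ x : ℝ, X₀ ≤ x → C ≤ Real.log x := by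
  have := Real.tendsto_log_atTop.eventually (Filter.eventually_ge_atTop C)
  exact Filter.eventually_atTop.mp this

theorem ev_pow (K : ℕ) (c : ℝ) (hc : 0 < c) : ∃ X₀ : ℝ, ∀ x : ℝ, X₀ ≤ x →
    Real.log x ^ K ≤ c * x ^ (1 / 4 : ℝ) := by
  have h := (isLittleO_log_rpow_rpow_atTop (K : ℝ) (by norm_num : (0 : ℝ) < 1 / 4)).bound hc
  obtain ⟨X₀, h⟩ := Filter.eventually_atTop.mp h
  refine ⟨max X₀ 1, fun x hx => ?_⟩
  have h1 := h x (le_trans (le_max_left _ _) hx)
  have hx1 : 1 ≤ x := le_trans (le_max_right _ _) hx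
  rw [Real.norm_eq_abs, Real.norm_eq_abs, Real.rpow_natCast] at h1
  rw [abs_of_nonneg (by positivity : (0 : ℝ) ≤ x ^ (1 / 4 : ℝ))] at h1
  exact le_trans (le_abs_self _) h1

/-- `ψ(x) - x` -/
theorem psi_err (U : ℕ) : ∃ X₀ : ℝ, ∀ x : ℝ, X₀ ≤ x → |psi1 x - x| ≤ x / Real.log x ^ U := by
  obtain ⟨N₁, h⟩ := Pool.Agent.W762.EC.PntA.large (U + 1) (by omega)
  set C : ℝ := 35 + 16 * 8 ^ (U + 1) with hC
  obtain ⟨X1, h1⟩ := ev_log (C * 2 ^ (U + 1) + 4)
  obtain ⟨X2, h2⟩ := ev_pow (U + 1) 1 one_pos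
  refine ⟨max (max X1 X2) (max (N₁ + 2) 3), fun x hx => ?_⟩
  have hx1 : X1 ≤ x := le_trans (le_trans (le_max_left _ _) (le_max_left _ _)) hx
  have hx2 : X2 ≤ x := le_trans (le_trans (le_max_right _ _) (le_max_left _ _)) hx
  have hx3 : (N₁ + 2 : ℝ) ≤ x := le_trans (le_trans (le_max_left _ _) (le_max_right _ _)) hx
  have hx4 : (3 : ℝ) ≤ x := le_trans (le_trans (le_max_right _ _) (le_max_right _ _)) hx
  have hL := h1 x hx1
  set L := Real.log x with hLdef
  have hC0 : 0 < C := by positivity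
  have hL4 : 4 ≤ L := le_trans (by nlinarith [pow_pos (two_pos : (0 : ℝ) < 2) (U + 1)]) hL
  set N := ⌊x⌋₊ with hN
  have hNx : (N : ℝ) ≤ x := Nat.floor_le (by linarith)
  have hNx' : x < N + 1 := Nat.lt_floor_add_one x
  have hNN : N₁ ≤ N := by
    apply Nat.le_floor; linarith
  have h3 := h N hNN
  have e1 : psi1 x = Chebyshev.psi (N : ℝ) := by
    unfold psi1 Chebyshev.psi
    rw [Nat.floor_natCast]
    rfl
  have hN2 : x / 2 ≤ N := by linarith
  have hN0 : (0 : ℝ) < N := by linarith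
  have hlogN : L / 2 ≤ Real.log N := by
    have : Real.log (x / 2) ≤ Real.log N := Real.log_le_log (by linarith) hN2
    rw [Real.log_div (by linarith) (by norm_num)] at this
    have l2 : Real.log 2 ≤ 1 := by
      have := Real.log_two_lt_d9; linarith
    linarith
  have hpow : (L / 2) ^ (U + 1) ≤ Real.log N ^ (U + 1) :=
    pow_le_pow_left₀ (by linarith) hlogN _
  have h4 : |Chebyshev.psi (N : ℝ) - N| ≤ C * (x / (L / 2) ^ (U + 1)) := by
    refine h3.trans ?_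
    apply mul_le_mul_of_nonneg_left _ hC0.le
    exact div_le_div₀ (by linarith) hNx (by positivity) hpow
  have h5 : C * (x / (L / 2) ^ (U + 1)) = C * 2 ^ (U + 1) / L * (x / L ^ U) := by
    rw [div_pow, pow_succ L U]
    field_simp
  have h6 : (1 : ℝ) ≤ 1 / L * (x / L ^ U) := by
    rw [div_mul_div_comm, one_mul, ← pow_succ', one_le_div (by positivity)]
    refine (h2 x hx2).trans ?_
    rw [one_mul]
    calc x ^ (1 / 4 : ℝ) ≤ x ^ (1 : ℝ) :=
          Real.rpow_le_rpow_of_exponent_le (by linarith) (by norm_num)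
      _ = x := Real.rpow_one x
  have h7 : |psi1 x - x| ≤ |Chebyshev.psi (N : ℝ) - N| + 1 := by
    rw [e1]
    have : |Chebyshev.psi (N : ℝ) - x| ≤ |Chebyshev.psi (N : ℝ) - N| + |(N : ℝ) - x| :=
      abs_sub_le _ _ _
    have h8 : |(N : ℝ) - x| ≤ 1 := by rw [abs_le]; constructor <;> linarith
    linarith
  have h8 : 0 ≤ x / L ^ U := by positivity
  have h9 : C * 2 ^ (U + 1) / L * (x / L ^ U) + 1 / L * (x / L ^ U) ≤ 1 * (x / L ^ U) := by
    rw [← add_mul]
    apply mul_le_mul_of_nonneg_right _ h8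
    rw [← add_div, div_le_one (by linarith)]
    linarith
  linarith

end Pool.Agent.Helper81.Blk
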