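import Pool.Agent.Helper81.Blk.A

/-!
Primes in residue classes in short intervals `(x, x + x / (log x) ^ A]`.
-/

set_option autoImplicit false

open Finset ArithmeticFunction

namespace Pool.Agent.Helper81.Blk

open Pool.Agent.H410R2 H343E

/-- Siegel–Walfisz for one modulus -/
theorem psiAP_err (m : ℕ) (hm : 1 ≤ m) (U : ℕ) : ∃ X₀ : ℝ, ∀ x : ℝ, X₀ ≤ x → ∀ a : ℕ,
    a.Coprime m → |psiAP x m a - x / (Nat.totient m : ℝ)| ≤ x / Real.log x ^ U := by
  obtain ⟨X1, h1⟩ := log_err m hm (2 * U + 4)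
  obtain ⟨X2, h2⟩ := psi_err (U + 1)
  obtain ⟨X3, h3⟩ := ev_log (9 * 2 ^ (2 * U + 4) + 9 + 4)
  obtain ⟨X4, h4⟩ := ev_pow (U + 3) 1 one_pos
  refine ⟨max (max (3 * |X1|) X2) (max (max X3 X4) 3), fun x hx a ha => ?_⟩
  have hx1 : 3 * |X1| ≤ x := le_trans (le_trans (le_max_left _ _) (le_max_left _ _)) hx
  have hx2 : X2 ≤ x := le_trans (le_trans (le_max_right _ _) (le_max_left _ _)) hx
  have hx3 : X3 ≤ x := le_trans (le_trans (le_max_left _ _)
    (le_trans (le_max_left _ _) (le_max_right _ _))) hx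
  have hx4 : X4 ≤ x := le_trans (le_trans (le_max_right _ _)
    (le_trans (le_max_left _ _) (le_max_right _ _))) hx
  have hx5 : (3 : ℝ) ≤ x := le_trans (le_trans (le_max_right _ _) (le_max_right _ _)) hx
  have hL := h3 x hx3
  have hx0 : 0 < x := by linarith
  set L := Real.log x with hLdef
  have hp : (0 : ℝ) < 2 ^ (2 * U + 4) := by positivity
  have hL4 : 13 ≤ L := by linarith
  have hL0 : 0 < L := by linarith
  set K := U + 3 with hK
  set η : ℝ := 1 / L ^ K with hη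
  have hη0 : 0 < η := by positivity
  have hη1 : η ≤ 1 := by
    rw [hη, div_le_one (by positivity)]
    exact one_le_pow₀ (by linarith)
  have e1 : Real.exp 1 ≤ 3 := by
    have := Real.exp_one_lt_d9; linarith
  have key : ∀ t : ℝ, -1 ≤ t → t ≤ 1 →
      |psiLogAP (x * Real.exp t) m a - psiLog1 (x * Real.exp t) / (Nat.totient m : ℝ)| ≤
        3 * 2 ^ (2 * U + 4) * (x / L ^ (2 * U + 4)) := by
    intro t ht1 ht2
    have hexp : (1 : ℝ) / 3 ≤ Real.exp t := by
      have : Real.exp (-1) ≤ Real.exp t := Real.exp_le_exp.2 ht1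
      rw [Real.exp_neg] at this
      refine le_trans ?_ this
      rw [one_div]
      exact inv_anti₀ (Real.exp_pos 1) e1
    have hexp2 : Real.exp t ≤ 3 := (Real.exp_le_exp.2 ht2).trans e1
    have hX : X1 ≤ x * Real.exp t := by
      have := le_abs_self X1
      nlinarith
    refine (h1 _ hX a ha).trans ?_
    rw [Real.log_mul hx0.ne' (Real.exp_pos t).ne', Real.log_exp]
    have h5 : (L / 2) ^ (2 * U + 4) ≤ (L + t) ^ (2 * U + 4) :=
      pow_le_pow_left₀ (by linarith) (by linarith) _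
    have h6 : x * Real.exp t / (L + t) ^ (2 * U + 4) ≤ (3 * x) / (L / 2) ^ (2 * U + 4) :=
      div_le_div₀ (by linarith) (by nlinarith) (by positivity) h5
    refine h6.trans (le_of_eq ?_)
    rw [div_pow]
    field_simp
  have hu := unsmooth_point hx0 hη0 m a
  have k1 := key η (by linarith) hη1
  have k2 := key 0 (by norm_num) (by norm_num)
  have k3 := key (-η) (by linarith) (by linarith)
  rw [Real.exp_zero, mul_one] at k2
  have hs := psi1_short (by linarith : 1 ≤ x) hη0 hη1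
  have hφ : (1 : ℝ) ≤ Nat.totient m := by exact_mod_cast Nat.totient_pos.mpr (by omega)
  set Q := x / L ^ (U + 1) with hQ
  have hQ0 : 0 < Q := by positivity
  -- first term
  have t1 : (1 / η) * (3 * (3 * 2 ^ (2 * U + 4) * (x / L ^ (2 * U + 4)))) =
      9 * 2 ^ (2 * U + 4) * Q := by
    rw [hη, hQ, hK, show 2 * U + 4 = (U + 3) + (U + 1) by ring, pow_add L (U + 3) (U + 1)]
    field_simp
    ring
  have t2 : (3 * η * x + 1) * (L + 1) ≤ 8 * Q := by
    have h6 : (1 : ℝ) ≤ η * x := by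
      rw [hη, one_div, inv_mul_eq_div, one_le_div (by positivity)]
      refine (h4 x hx4).trans ?_
      rw [one_mul]
      calc x ^ (1 / 4 : ℝ) ≤ x ^ (1 : ℝ) :=
            Real.rpow_le_rpow_of_exponent_le (by linarith) (by norm_num)
        _ = x := Real.rpow_one x
    have h7 : η * x * L ^ 2 = Q := by
      rw [hη, hQ, hK, pow_add L (U + 1) 2]
      field_simp
    have h8 : (3 * η * x + 1) * (L + 1) ≤ (4 * (η * x)) * (2 * L) := by
      apply mul_le_mul _ _ (by linarith) (by nlinarith)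
      · nlinarith
      · linarith
    have h9 : η * x * L ≤ Q := by
      rw [← h7]
      have : L ≤ L ^ 2 := by nlinarith
      exact mul_le_mul_of_nonneg_left this (by positivity)
    nlinarith
  have t3 : (psi1 (x * Real.exp η) - psi1 (x * Real.exp (-η))) / (Nat.totient m : ℝ) ≤ 8 * Q := by
    have h0 : 0 ≤ 8 * Q := by positivity
    rw [div_le_iff₀ (by linarith)]
    nlinarith
  have t4 : |psiAP x m a - psi1 x / (Nat.totient m : ℝ)| ≤ (9 * 2 ^ (2 * U + 4) + 8) * Q := by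
    refine hu.trans ?_
    rw [add_mul]
    apply add_le_add _ t3
    rw [← t1]
    apply mul_le_mul_of_nonneg_left _ (by positivity)
    linarith
  have t5 : |psi1 x / (Nat.totient m : ℝ) - x / (Nat.totient m : ℝ)| ≤ Q := by
    rw [← sub_div, abs_div, abs_of_pos (by linarith : (0 : ℝ) < Nat.totient m)]
    rw [div_le_iff₀ (by linarith)]
    have := h2 x hx2
    nlinarith
  have t6 : |psiAP x m a - x / (Nat.totient m : ℝ)| ≤ (9 * 2 ^ (2 * U + 4) + 9) * Q := by
    have := abs_sub_le (psiAP x m a) (psi1 x / (Nat.totient m : ℝ)) (x / (Nat.totient m : ℝ))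
    linarith
  refine t6.trans ?_
  have t7 : x / L ^ U = L * Q := by
    rw [hQ, pow_succ]
    field_simp
  rw [t7]
  exact mul_le_mul_of_nonneg_right (by linarith) hQ0.le

/-- `∑_{x < p ≤ y, p ≡ a mod m} log p` against the difference of the `psi` functions -/
theorem theta_short (m a : ℕ) {x y : ℝ} (hx : 1 ≤ x) (hxy : x ≤ y) :
    (∑ p ∈ (Ioc ⌊x⌋₊ ⌊y⌋₊).filter (fun p => p.Prime ∧ p ≡ a [MOD m]), Real.log p) ≤
      psiAP y m a - psiAP x m a ∧
    psiAP y m a - psiAP x m a - 2 * √y * Real.log y ≤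
      ∑ p ∈ (Ioc ⌊x⌋₊ ⌊y⌋₊).filter (fun p => p.Prime ∧ p ≡ a [MOD m]), Real.log p := by
  have hfl : ⌊x⌋₊ ≤ ⌊y⌋₊ := Nat.floor_le_floor hxy
  have hsplit : (Icc 1 ⌊y⌋₊).filter (fun n => n ≡ a [MOD m]) =
      (Icc 1 ⌊x⌋₊).filter (fun n => n ≡ a [MOD m]) ∪
        (Ioc ⌊x⌋₊ ⌊y⌋₊).filter (fun n => n ≡ a [MOD m]) := by
    ext n
    simp only [mem_filter, mem_union, mem_Icc, mem_Ioc]
    constructor
    · rintro ⟨⟨h1, h2⟩, h3⟩
      by_cases h : n ≤ ⌊x⌋₊
      · exact Or.inl ⟨⟨h1, h⟩, h3⟩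
      · exact Or.inr ⟨⟨by omega, h2⟩, h3⟩
    · rintro (⟨⟨h1, h2⟩, h3⟩ | ⟨⟨h1, h2⟩, h3⟩)
      · exact ⟨⟨h1, by omega⟩, h3⟩
      · exact ⟨⟨by omega, h2⟩, h3⟩
  have hdisj : Disjoint ((Icc 1 ⌊x⌋₊).filter (fun n => n ≡ a [MOD m]))
        ((Ioc ⌊x⌋₊ ⌊y⌋₊).filter (fun n => n ≡ a [MOD m])) := by
    rw [disjoint_left]
    intro n h1 h2
    simp only [mem_filter, mem_Icc, mem_Ioc] at h1 h2
    omega
  have hdiff : psiAP y m a - psiAP x m a =
      ∑ n ∈ (Ioc ⌊x⌋₊ ⌊y⌋₊).filter (fun n => n ≡ a [MOD m]), vonMangoldt n := by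
    unfold psiAP
    rw [hsplit, sum_union hdisj]
    ring
  have hprime : ∑ p ∈ (Ioc ⌊x⌋₊ ⌊y⌋₊).filter (fun p => p.Prime ∧ p ≡ a [MOD m]), Real.log p =
      ∑ n ∈ ((Ioc ⌊x⌋₊ ⌊y⌋₊).filter (fun n => n ≡ a [MOD m])).filter Nat.Prime,
        vonMangoldt n := by
    rw [filter_filter]
    refine sum_congr ?_ fun p hp => ?_
    · ext n; simp only [mem_filter]; tauto
    · simp only [mem_filter] at hp
      rw [vonMangoldt_apply_prime hp.2.2]
  rw [hdiff, hprime]
  constructor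
  · exact sum_le_sum_of_subset_of_nonneg (filter_subset _ _) fun _ _ _ => vonMangoldt_nonneg
  · rw [← sum_filter_add_sum_filter_not ((Ioc ⌊x⌋₊ ⌊y⌋₊).filter (fun n => n ≡ a [MOD m]))
      Nat.Prime]
    have h1 : ∑ n ∈ ((Ioc ⌊x⌋₊ ⌊y⌋₊).filter (fun n => n ≡ a [MOD m])).filter
        (fun n => ¬ n.Prime), vonMangoldt n ≤ Chebyshev.psi y - Chebyshev.theta y := by
      rw [Chebyshev.psi_sub_theta_eq_sum_not_prime]
      refine sum_le_sum_of_subset_of_nonneg ?_ fun _ _ _ => vonMangoldt_nonneg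
      intro n hn
      simp only [mem_filter, mem_Ioc] at hn ⊢
      exact ⟨⟨by omega, hn.1.1.2⟩, hn.2⟩
    have h2 := Chebyshev.psi_sub_theta_le (x := y) (by linarith)
    linarith

end Pool.Agent.Helper81.Blk
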