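import Pool.Agent.Helper81.Blk.B

/-!
Primes in residue classes in short intervals `(x, x (1 + δ)]`, `(log x) ^ (-A) ≤ δ ≤ δ₀`.
-/

set_option autoImplicit false

open Finset ArithmeticFunction

namespace Pool.Agent.Helper81.Blk

open Pool.Agent.H410R2 H343E

/-- the number of primes `p ≡ a mod m` in `(x, y]` -/
noncomputable def cnt (m a : ℕ) (x y : ℝ) : ℕ :=
  ((Ioc ⌊x⌋₊ ⌊y⌋₊).filter (fun p => p.Prime ∧ p ≡ a [MOD m])).card

/-- primes in a residue class in `(x, y]`, `x ≤ y ≤ 2 x`, with error term -/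
theorem count_short (m : ℕ) (hm : 1 ≤ m) (U : ℕ) : ∃ X₀ : ℝ, ∀ x : ℝ, X₀ ≤ x → ∀ y : ℝ,
    x ≤ y → y ≤ 2 * x → ∀ a : ℕ, a.Coprime m →
    |(cnt m a x y : ℝ) - (y - x) / ((Nat.totient m : ℝ) * Real.log x)| ≤
      x / Real.log x ^ U + (y - x) ^ 2 / (x * Real.log x ^ 2) := by
  obtain ⟨X1, h1⟩ := psiAP_err m hm (U + 1)
  obtain ⟨X2, h2⟩ := ev_log 16
  obtain ⟨X3, h3⟩ := ev_pow (U + 3) 1 one_pos
  refine ⟨max (max X1 X2) (max X3 3), fun x hx y hxy hy2 a ha => ?_⟩
  have hx1 : X1 ≤ x := le_trans (le_trans (le_max_left _ _) (le_max_left _ _)) hx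
  have hx2 : X2 ≤ x := le_trans (le_trans (le_max_right _ _) (le_max_left _ _)) hx
  have hx3 : X3 ≤ x := le_trans (le_trans (le_max_left _ _) (le_max_right _ _)) hx
  have hx4 : (3 : ℝ) ≤ x := le_trans (le_trans (le_max_right _ _) (le_max_right _ _)) hx
  have hL := h2 x hx2
  have hx0 : 0 < x := by linarith
  have hy0 : 0 < y := by linarith
  have h1x := h1 x hx1 a ha
  have h1y := h1 y (by linarith) a ha
  have hp3 := h3 x hx3
  set L := Real.log x with hLdef
  have hL0 : 0 < L := by linarith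
  set L' := Real.log y with hLdef'
  have hLL : L ≤ L' := Real.log_le_log hx0 hxy
  have hLL2 : L' - L ≤ (y - x) / x := by
    have h5 : L' - L = Real.log (y / x) := by
      rw [Real.log_div hy0.ne' hx0.ne']
    rw [h5]
    have := Real.log_le_sub_one_of_pos (by positivity : 0 < y / x)
    refine this.trans (le_of_eq ?_)
    field_simp
  have hφ : (1 : ℝ) ≤ Nat.totient m := by exact_mod_cast Nat.totient_pos.mpr (by omega)
  set φ : ℝ := (Nat.totient m : ℝ) with hφdef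
  set Q := x / L ^ (U + 1) with hQ
  have hQ0 : 0 < Q := by positivity
  have hQy : y / L' ^ (U + 1) ≤ 2 * Q := by
    rw [hQ, ← mul_div_assoc]
    exact div_le_div₀ (by linarith) hy2 (by positivity) (pow_le_pow_left₀ hL0.le hLL _)
  set S := ∑ p ∈ (Ioc ⌊x⌋₊ ⌊y⌋₊).filter (fun p => p.Prime ∧ p ≡ a [MOD m]), Real.log p with hS
  obtain ⟨s1, s2⟩ := theta_short m a (by linarith : 1 ≤ x) hxy
  rw [← hS] at s1 s2
  -- the square root term
  have hsq : 2 * √y * L' ≤ Q := by
    have g1 : √y ≤ 2 * x ^ (1 / 2 : ℝ) := by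
      rw [← Real.sqrt_eq_rpow]
      have : √y ≤ √(4 * x) := Real.sqrt_le_sqrt (by linarith)
      refine this.trans (le_of_eq ?_)
      rw [Real.sqrt_mul (by norm_num), show (4 : ℝ) = 2 ^ 2 by norm_num,
        Real.sqrt_sq (by norm_num)]
    have g2 : L' ≤ 2 * L := by
      have : (y - x) / x ≤ 1 := by rw [div_le_one hx0]; linarith
      linarith
    have g3 : 8 * (x ^ (1 / 2 : ℝ) * L) * L ^ (U + 1) ≤ x := by
      have g4 : x ^ (1 / 2 : ℝ) * x ^ (1 / 4 : ℝ) ≤ x := by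
        rw [← Real.rpow_add hx0]
        calc x ^ (1 / 2 + 1 / 4 : ℝ) ≤ x ^ (1 : ℝ) :=
              Real.rpow_le_rpow_of_exponent_le (by linarith) (by norm_num)
          _ = x := Real.rpow_one x
      have g5 : 8 * L ^ (U + 2) ≤ x ^ (1 / 4 : ℝ) := by
        have : L ^ (U + 3) = L * L ^ (U + 2) := by ring
        rw [one_mul] at hp3
        have : 0 < L ^ (U + 2) := by positivity
        nlinarith
      have g6 : 0 < x ^ (1 / 2 : ℝ) := by positivity
      calc 8 * (x ^ (1 / 2 : ℝ) * L) * L ^ (U + 1) = x ^ (1 / 2 : ℝ) * (8 * L ^ (U + 2)) := by ring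
        _ ≤ x ^ (1 / 2 : ℝ) * x ^ (1 / 4 : ℝ) := mul_le_mul_of_nonneg_left g5 g6.le
        _ ≤ x := g4
    rw [hQ, le_div_iff₀ (by positivity)]
    have g7 : 2 * √y * L' ≤ 8 * (x ^ (1 / 2 : ℝ) * L) := by
      have g8 : 0 ≤ √y := Real.sqrt_nonneg y
      have g9 : √y * L' ≤ (2 * x ^ (1 / 2 : ℝ)) * (2 * L) :=
        mul_le_mul g1 g2 (by linarith) (by positivity)
      linarith
    exact (mul_le_mul_of_nonneg_right g7 (by positivity)).trans g3
  -- the sum `S`
  have hSerr : |S - (y - x) / φ| ≤ 4 * Q := by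
    rw [abs_le] at h1x h1y ⊢
    rw [sub_div]
    constructor <;> linarith [h1x.1, h1x.2, h1y.1, h1y.2]
  -- the count
  set N : ℝ := (cnt m a x y : ℝ) with hN
  have hN1 : N * L ≤ S := by
    rw [hN, cnt, hS, ← nsmul_eq_mul, ← sum_const]
    refine sum_le_sum fun p hp => ?_
    simp only [mem_filter, mem_Ioc] at hp
    exact Real.log_le_log hx0 ((Nat.floor_lt hx0.le).1 hp.1.1).le
  have hN2 : S ≤ N * L' := by
    rw [hN, cnt, hS, ← nsmul_eq_mul, ← sum_const]
    refine sum_le_sum fun p hp => ?_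
    simp only [mem_filter, mem_Ioc] at hp
    exact Real.log_le_log (by exact_mod_cast hp.2.1.pos) ((Nat.le_floor_iff hy0.le).1 hp.1.2)
  have hN0 : 0 ≤ N := by rw [hN]; positivity
  have hd0 : 0 ≤ y - x := by linarith
  -- N L = S - (error), error ≤ N (L' - L)
  have hN3 : N ≤ ((y - x) / φ + 4 * Q) / L := by
    rw [le_div_iff₀ hL0]
    have := (abs_le.1 hSerr).2
    linarith
  have hN4 : N * (L' - L) ≤ (y - x) ^ 2 / (x * L) + 4 * Q / L := by
    have g1 : N * (L' - L) ≤ N * ((y - x) / x) := mul_le_mul_of_nonneg_left hLL2 hN0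
    have g2 : N * ((y - x) / x) ≤ ((y - x) / φ + 4 * Q) / L * ((y - x) / x) :=
      mul_le_mul_of_nonneg_right hN3 (by positivity)
    have g3 : (y - x) / φ ≤ y - x := div_le_self hd0 hφ
    have g4 : (y - x) / x ≤ 1 := by rw [div_le_one hx0]; linarith
    have g5 : ((y - x) / φ + 4 * Q) / L * ((y - x) / x) ≤
        (y - x) / L * ((y - x) / x) + 4 * Q / L * 1 := by
      rw [add_div, add_mul]
      apply add_le_add
      · apply mul_le_mul_of_nonneg_right _ (by positivity)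
        exact div_le_div_of_nonneg_right g3 hL0.le
      · exact mul_le_mul_of_nonneg_left g4 (by positivity)
    have g6 : (y - x) / L * ((y - x) / x) = (y - x) ^ 2 / (x * L) := by
      field_simp
    linarith
  have hfin : |N * L - (y - x) / φ| ≤ 5 * Q + (y - x) ^ 2 / (x * L) := by
    have g1 : 4 * Q / L ≤ Q := by
      rw [div_le_iff₀ hL0]; nlinarith
    rw [abs_le] at hSerr ⊢
    have g2 : 0 ≤ (y - x) ^ 2 / (x * L) := by positivity
    constructor <;> nlinarith [hSerr.1, hSerr.2]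
  have e1 : N - (y - x) / (φ * L) = (N * L - (y - x) / φ) / L := by
    field_simp
  rw [e1, abs_div, abs_of_pos hL0, div_le_iff₀ hL0]
  refine hfin.trans ?_
  have e2 : (x / L ^ U + (y - x) ^ 2 / (x * L ^ 2)) * L = L ^ 2 * Q + (y - x) ^ 2 / (x * L) := by
    rw [hQ, pow_succ]
    field_simp
    ring
  rw [e2]
  have : 5 ≤ L ^ 2 := by nlinarith
  nlinarith

/-- primes in a residue class in `(x, x (1 + δ)]`, uniformly for `(log x) ^ (-A) ≤ δ ≤ δ₀` -/
theorem count_uniform (m : ℕ) (hm : 1 ≤ m) (A : ℕ) (ε : ℝ) (hε : 0 < ε) :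
    ∃ X₀ : ℝ, ∀ x : ℝ, X₀ ≤ x → ∀ δ : ℝ, 1 / Real.log x ^ A ≤ δ → δ ≤ 1 →
    ∀ a : ℕ, a.Coprime m →
    |(cnt m a x (x * (1 + δ)) : ℝ) - δ * x / ((Nat.totient m : ℝ) * Real.log x)| ≤
      ε * (δ * x / Real.log x) := by
  obtain ⟨X1, h1⟩ := count_short m hm (A + 2)
  obtain ⟨X2, h2⟩ := ev_log (max 1 (2 / ε))
  refine ⟨max (max X1 X2) 1, fun x hx δ hδ hδ1 a ha => ?_⟩
  have hx1 : X1 ≤ x := le_trans (le_trans (le_max_left _ _) (le_max_left _ _)) hx
  have hx2 : X2 ≤ x := le_trans (le_trans (le_max_right _ _) (le_max_left _ _)) hx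
  have hx3 : (1 : ℝ) ≤ x := le_trans (le_max_right _ _) hx
  have hL := h2 x hx2
  have hx0 : 0 < x := by linarith
  set L := Real.log x with hLdef
  have hL1 : 1 ≤ L := le_trans (le_max_left _ _) hL
  have hL2 : 2 / ε ≤ L := le_trans (le_max_right _ _) hL
  have hL0 : 0 < L := by linarith
  have hδ0 : 0 < δ := lt_of_lt_of_le (by positivity) hδ
  have h3 := h1 x hx1 (x * (1 + δ)) (by nlinarith) (by nlinarith) a ha
  rw [show x * (1 + δ) - x = δ * x by ring] at h3
  refine h3.trans ?_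
  have hε2 : 2 ≤ ε * L := by
    rw [div_le_iff₀ hε] at hL2; linarith
  have g1 : x / L ^ (A + 2) ≤ ε / 2 * (δ * x / L) := by
    have e : x / L ^ (A + 2) = (1 / L ^ A) * (1 / L) * (x / L) := by
      rw [pow_add]; field_simp
    rw [e]
    have g2 : (1 / L ^ A) * (1 / L) * (x / L) ≤ δ * (ε / 2) * (x / L) := by
      apply mul_le_mul_of_nonneg_right _ (by positivity)
      apply mul_le_mul hδ _ (by positivity) hδ0.le
      rw [div_le_iff₀ hL0]; linarith
    refine g2.trans (le_of_eq ?_)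
    ring
  have g2 : (δ * x) ^ 2 / (x * L ^ 2) ≤ ε / 2 * (δ * x / L) := by
    have e : (δ * x) ^ 2 / (x * L ^ 2) = δ * (1 / L) * (δ * x / L) := by
      field_simp
    rw [e]
    apply mul_le_mul_of_nonneg_right _ (by positivity)
    have : 1 / L ≤ ε / 2 := by rw [div_le_iff₀ hL0]; linarith
    have h0 : 0 ≤ 1 / L := by positivity
    nlinarith
  linarith

end Pool.Agent.Helper81.Blk
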